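import Pool.Agent.helper31.GPR.Spec

set_option autoImplicit false

namespace Pool.Agent.GPR

open Pool.Agent.helper25.QST

theorem NU3_aux (k : ℕ) (hk : 3 ≤ k) : 2 * k + 1 ≤ 2 ^ k := by
  induction k, hk using Nat.le_induction with
  | base => norm_num
  | succ k hk ih =>
    rw [pow_succ]
    omega

theorem NU3 : NU3_stmt := by
  intro n L h
  have h1 : n ≤ 2 ^ (n / 2) := by
    have := NU3_aux (n / 2) (by omega)
    omega
  calc n * 2 ^ (2 * L + 5) ≤ 2 ^ (n / 2) * 2 ^ (2 * L + 5) := Nat.mul_le_mul_right _ h1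
    _ = 2 ^ (n / 2 + (2 * L + 5)) := by rw [← pow_add]
    _ ≤ 2 ^ n := Nat.pow_le_pow_right (by norm_num) (by omega)

end Pool.Agent.GPR
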